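import Mathlib

/-!
# MP_1bbe3d_pr, Q1: existence of the MLE in the Weibull step-stress model
-/

open Set Filter

namespace Pool.Agent.Results.MP_1bbe3d_pr.StepStressMLE

/-- `u(t) = τ + β (t - τ)`. -/
noncomputable def u (τ β t : ℝ) : ℝ := τ + β * (t - τ)

/-- A data set: `n` items on test, `s 0 < s 1 < ...` are the `n1` failure times at the first stress
level (all in `(0, τ]`), `r 0 < r 1 < ...` are the `n2` failure times at the second level (all in
`(τ, η]`), and `n1 + n2 ≤ n`. -/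
structure IsData (n n1 n2 : ℕ) (τ η : ℝ) (s : Fin n1 → ℝ) (r : Fin n2 → ℝ) : Prop where
  tau_pos : 0 < τ
  tau_lt : τ < η
  le_n : n1 + n2 ≤ n
  mono_s : StrictMono s
  mono_r : StrictMono r
  s_mem : ∀ i, 0 < s i ∧ s i ≤ τ
  r_mem : ∀ j, τ < r j ∧ r j ≤ η

/-- `Q(α,β)`. -/
noncomputable def Q (n : ℕ) {n1 n2 : ℕ} (τ η : ℝ) (s : Fin n1 → ℝ) (r : Fin n2 → ℝ)
    (α β : ℝ) : ℝ :=
  ∑ i, (s i) ^ α + ∑ j, (u τ β (r j)) ^ α + ((n : ℝ) - (n1 + n2)) * (u τ β η) ^ α

/-- The log-likelihood `l(α,θ,β)`. -/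
noncomputable def logLik (n : ℕ) {n1 n2 : ℕ} (τ η : ℝ) (s : Fin n1 → ℝ) (r : Fin n2 → ℝ)
    (α θ β : ℝ) : ℝ :=
  (n1 + n2) * Real.log α + n2 * Real.log β - (n1 + n2) * α * Real.log θ
    + (α - 1) * (∑ i, Real.log (s i) + ∑ j, Real.log (u τ β (r j)))
    - θ ^ (-α) * Q n τ η s r α β

/-- `l` attains its supremum at some point of `(0,∞)^3`. -/
def MLEExists (n : ℕ) {n1 n2 : ℕ} (τ η : ℝ) (s : Fin n1 → ℝ) (r : Fin n2 → ℝ) : Prop :=
  ∃ α θ β : ℝ, 0 < α ∧ 0 < θ ∧ 0 < β ∧ ∀ α' θ' β' : ℝ, 0 < α' → 0 < θ' → 0 < β' →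
    logLik n τ η s r α' θ' β' ≤ logLik n τ η s r α θ β

/-- The statement of Q1. -/
def Q1 : Prop :=
  ∀ (n n1 n2 : ℕ) (τ η : ℝ) (s : Fin n1 → ℝ) (r : Fin n2 → ℝ), IsData n n1 n2 τ η s r →
    n2 ≠ 0 → 3 ≤ n1 + n2 → MLEExists n τ η s r

/-! ### Elementary facts -/

lemma u_pos {τ β t : ℝ} (hτ : 0 < τ) (hβ : 0 < β) (ht : τ < t) : 0 < u τ β t := by
  unfold u
  have : 0 < β * (t - τ) := mul_pos hβ (by linarith)
  linarith

lemma tau_lt_u {τ β t : ℝ} (hβ : 0 < β) (ht : τ < t) : τ < u τ β t := by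
  unfold u
  have : 0 < β * (t - τ) := mul_pos hβ (by linarith)
  linarith

/-- maximisation over the scale -/
lemma profile_le {m Qv : ℝ} (hm : 0 < m) (hQ : 0 < Qv) {α θ : ℝ} (hθ : 0 < θ) :
    -(m * α * Real.log θ) - θ ^ (-α) * Qv ≤ m * Real.log m - m * Real.log Qv - m := by
  set z := θ ^ (-α) with hz
  have hz0 : 0 < z := Real.rpow_pos_of_pos hθ _
  have hlz : Real.log z = -(α * Real.log θ) := by
    rw [hz, Real.log_rpow hθ]; ring
  have h1 := Real.log_le_sub_one_of_pos (x := z * Qv / m) (by positivity)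
  rw [Real.log_div (by positivity) hm.ne', Real.log_mul hz0.ne' hQ.ne', hlz] at h1
  have h2 : m * (-(α * Real.log θ) + Real.log Qv - Real.log m) ≤ m * (z * Qv / m - 1) :=
    mul_le_mul_of_nonneg_left h1 hm.le
  have h3 : m * (z * Qv / m - 1) = z * Qv - m := by field_simp
  rw [h3] at h2
  linarith

lemma profile_eq {m Qv : ℝ} (hm : 0 < m) (hQ : 0 < Qv) {α : ℝ} (hα : 0 < α) :
    -(m * α * Real.log ((Qv / m) ^ (1 / α))) - ((Qv / m) ^ (1 / α)) ^ (-α) * Qv
      = m * Real.log m - m * Real.log Qv - m := by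
  have h0 : 0 < Qv / m := by positivity
  rw [Real.log_rpow h0, ← Real.rpow_mul h0.le, Real.log_div hQ.ne' hm.ne']
  have h1 : 1 / α * -α = -1 := by field_simp
  rw [h1, Real.rpow_neg_one]
  field_simp
  ring

section existence

variable {n n1 n2 : ℕ} {τ η : ℝ} {s : Fin n1 → ℝ} {r : Fin n2 → ℝ}

/-- the profile likelihood (up to a constant) -/
noncomputable def P (n : ℕ) {n1 n2 : ℕ} (τ η : ℝ) (s : Fin n1 → ℝ) (r : Fin n2 → ℝ)
    (α β : ℝ) : ℝ :=
  (n1 + n2) * Real.log α + n2 * Real.log β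
    + (α - 1) * (∑ i, Real.log (s i) + ∑ j, Real.log (u τ β (r j)))
    - (n1 + n2) * Real.log (Q n τ η s r α β)

lemma Q_ge (hd : IsData n n1 n2 τ η s r) {α β : ℝ} (hβ : 0 < β) (j : Fin n2) :
    (u τ β (r j)) ^ α ≤ Q n τ η s r α β := by
  unfold Q
  have h1 : 0 ≤ ∑ i, (s i) ^ α :=
    Finset.sum_nonneg fun i _ => Real.rpow_nonneg (hd.s_mem i).1.le _
  have h2 : (u τ β (r j)) ^ α ≤ ∑ j, (u τ β (r j)) ^ α :=
    Finset.single_le_sum (f := fun j => (u τ β (r j)) ^ α)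
      (fun j _ => Real.rpow_nonneg (u_pos hd.tau_pos hβ (hd.r_mem j).1).le _) (Finset.mem_univ j)
  have h3 : (0 : ℝ) ≤ (n : ℝ) - (n1 + n2) := by
    have : ((n1 + n2 : ℕ) : ℝ) ≤ n := by exact_mod_cast hd.le_n
    push_cast at this
    linarith
  have h4 : 0 ≤ ((n : ℝ) - (n1 + n2)) * (u τ β η) ^ α :=
    mul_nonneg h3 (Real.rpow_nonneg (u_pos hd.tau_pos hβ hd.tau_lt).le _)
  linarith

lemma Q_pos (hd : IsData n n1 n2 τ η s r) (hn2 : 1 ≤ n2) {α β : ℝ} (hβ : 0 < β) :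
    0 < Q n τ η s r α β :=
  lt_of_lt_of_le (Real.rpow_pos_of_pos (u_pos hd.tau_pos hβ (hd.r_mem ⟨0, hn2⟩).1) _)
    (Q_ge hd hβ ⟨0, hn2⟩)

lemma logLik_le (hd : IsData n n1 n2 τ η s r) (hn2 : 1 ≤ n2) {α θ β : ℝ} (hθ : 0 < θ)
    (hβ : 0 < β) :
    logLik n τ η s r α θ β ≤ P n τ η s r α β
      + (((n1 : ℝ) + n2) * Real.log (n1 + n2) - (n1 + n2)) := by
  have hm : (0 : ℝ) < (n1 : ℝ) + n2 := by
    have : (1 : ℝ) ≤ n2 := by exact_mod_cast hn2
    positivity
  have h := profile_le hm (Q_pos (α := α) hd hn2 hβ) (α := α) hθ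
  unfold logLik P
  linarith

lemma logLik_eq (hd : IsData n n1 n2 τ η s r) (hn2 : 1 ≤ n2) {α β : ℝ} (hα : 0 < α)
    (hβ : 0 < β) :
    logLik n τ η s r α ((Q n τ η s r α β / ((n1 : ℝ) + n2)) ^ (1 / α)) β = P n τ η s r α β
      + (((n1 : ℝ) + n2) * Real.log (n1 + n2) - (n1 + n2)) := by
  have hm : (0 : ℝ) < (n1 : ℝ) + n2 := by
    have : (1 : ℝ) ≤ n2 := by exact_mod_cast hn2
    positivity
  have h := profile_eq hm (Q_pos (α := α) hd hn2 hβ) (α := α) hα
  unfold logLik P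
  linarith

/-- The basic upper bound for the profile. -/
lemma P_le (hd : IsData n n1 n2 τ η s r) (hn1 : 1 ≤ n1) (hn2 : 1 ≤ n2) {jm : Fin n2}
    (hjm : ∀ j, r j ≤ r jm) {α β : ℝ} (hα : 0 < α) (hβ : 0 < β) :
    P n τ η s r α β ≤ (n1 + n2) * Real.log α + n2 * Real.log β
      - (∑ i, Real.log (s i) + ∑ j, Real.log (u τ β (r j)))
      - α * (Real.log (u τ β (r jm)) - Real.log (s ⟨0, hn1⟩)) := by
  have hU : 0 < u τ β (r jm) := u_pos hd.tau_pos hβ (hd.r_mem jm).1
  set Lm := Real.log (u τ β (r jm)) with hLm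
  have h1 : α * Lm ≤ Real.log (Q n τ η s r α β) := by
    rw [hLm, ← Real.log_rpow hU]
    exact Real.log_le_log (Real.rpow_pos_of_pos hU _) (Q_ge hd hβ jm)
  have hs : ∀ i, Real.log (s i) ≤ Lm := fun i => by
    refine Real.log_le_log (hd.s_mem i).1 ?_
    exact (hd.s_mem i).2.trans (tau_lt_u hβ (hd.r_mem jm).1).le
  have hr : ∀ j, Real.log (u τ β (r j)) ≤ Lm := fun j => by
    refine Real.log_le_log (u_pos hd.tau_pos hβ (hd.r_mem j).1) ?_
    unfold u
    have := mul_le_mul_of_nonneg_left (hjm j) hβ.le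
    linarith
  have h2 : Lm - Real.log (s ⟨0, hn1⟩) ≤ ∑ i, (Lm - Real.log (s i)) :=
    Finset.single_le_sum (f := fun i => Lm - Real.log (s i))
      (fun i _ => by linarith [hs i]) (Finset.mem_univ (⟨0, hn1⟩ : Fin n1))
  have h3 : 0 ≤ ∑ j, (Lm - Real.log (u τ β (r j))) :=
    Finset.sum_nonneg fun j _ => by linarith [hr j]
  rw [Finset.sum_sub_distrib, Finset.sum_const, Finset.card_univ, Fintype.card_fin,
    nsmul_eq_mul] at h2 h3
  have hm : (0 : ℝ) ≤ (n1 : ℝ) + n2 := by positivity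
  have h4 : ((n1 : ℝ) + n2) * (α * Lm) ≤ (n1 + n2) * Real.log (Q n τ η s r α β) :=
    mul_le_mul_of_nonneg_left h1 hm
  have h5 : α * (∑ i, Real.log (s i) + ∑ j, Real.log (u τ β (r j)))
      ≤ α * ((n1 + n2) * Lm - (Lm - Real.log (s ⟨0, hn1⟩))) :=
    mul_le_mul_of_nonneg_left (by linarith) hα.le
  unfold P
  nlinarith

lemma P_continuousOn (hd : IsData n n1 n2 τ η s r) (hn2 : 1 ≤ n2) {a A b B : ℝ} (ha : 0 < a)
    (hb : 0 < b) :
    ContinuousOn (fun p : ℝ × ℝ => P n τ η s r p.1 p.2) (Icc a A ×ˢ Icc b B) := by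
  have hp1 : ∀ p ∈ Icc a A ×ˢ Icc b B, 0 < p.1 := fun p hp => lt_of_lt_of_le ha hp.1.1
  have hp2 : ∀ p ∈ Icc a A ×ˢ Icc b B, 0 < p.2 := fun p hp => lt_of_lt_of_le hb hp.2.1
  have hu : ∀ t : ℝ, Continuous (fun p : ℝ × ℝ => u τ p.2 t) := fun t => by
    unfold u; fun_prop
  have hQ : ContinuousOn (fun p : ℝ × ℝ => Q n τ η s r p.1 p.2) (Icc a A ×ˢ Icc b B) := by
    unfold Q
    refine ContinuousOn.add (ContinuousOn.add ?_ ?_) ?_
    · refine continuousOn_finsetSum _ fun i _ => ?_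
      exact continuousOn_const.rpow continuousOn_fst fun p _ => Or.inl (hd.s_mem i).1.ne'
    · refine continuousOn_finsetSum _ fun j _ => ?_
      exact (hu _).continuousOn.rpow continuousOn_fst fun p hp =>
        Or.inl (u_pos hd.tau_pos (hp2 p hp) (hd.r_mem j).1).ne'
    · refine continuousOn_const.mul ?_
      exact (hu _).continuousOn.rpow continuousOn_fst fun p hp =>
        Or.inl (u_pos hd.tau_pos (hp2 p hp) hd.tau_lt).ne'
  unfold P
  refine ContinuousOn.sub (ContinuousOn.add (ContinuousOn.add ?_ ?_) ?_) ?_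
  · exact continuousOn_const.mul (continuousOn_fst.log fun p hp => (hp1 p hp).ne')
  · exact continuousOn_const.mul (continuousOn_snd.log fun p hp => (hp2 p hp).ne')
  · refine ContinuousOn.mul (continuousOn_fst.sub continuousOn_const)
      (continuousOn_const.add ?_)
    refine continuousOn_finsetSum _ fun j _ => ?_
    exact (hu _).continuousOn.log fun p hp => (u_pos hd.tau_pos (hp2 p hp) (hd.r_mem j).1).ne'
  · exact continuousOn_const.mul (hQ.log fun p hp => (Q_pos hd hn2 (hp2 p hp)).ne')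

theorem exists_of_lt (hd : IsData n n1 n2 τ η s r) (hn1 : 1 ≤ n1) (hn2 : 1 ≤ n2)
    (hlt : s ⟨0, hn1⟩ < τ) : MLEExists n τ η s r := by
  have : Nonempty (Fin n2) := ⟨⟨0, hn2⟩⟩
  obtain ⟨jm, hjm⟩ := Finite.exists_max r
  have hn2r : (1 : ℝ) ≤ n2 := by exact_mod_cast hn2
  set m : ℝ := (n1 : ℝ) + n2 with hmdef
  have hm : 0 < m := by positivity
  set σ := s ⟨0, hn1⟩ with hσ
  have hσ0 : 0 < σ := (hd.s_mem _).1
  set δ := Real.log τ - Real.log σ with hδ
  have hδ0 : 0 < δ := by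
    have := Real.log_lt_log hσ0 hlt
    linarith
  set x := r jm - τ with hx
  have hx0 : 0 < x := by linarith [(hd.r_mem jm).1]
  set κ := Real.log x - Real.log σ with hκ
  set K1 := -(∑ i, Real.log (s i)) - ∑ j, Real.log (r j - τ) with hK1
  set K2 := -(∑ i, Real.log (s i)) - n2 * Real.log τ with hK2
  -- three bounds
  have hL1 : ∀ β, 0 < β → δ ≤ Real.log (u τ β (r jm)) - Real.log σ := by
    intro β hβ
    have := Real.log_le_log hd.tau_pos (tau_lt_u hβ (hd.r_mem jm).1).le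
    linarith
  have hL2 : ∀ β, 0 < β → Real.log β + κ ≤ Real.log (u τ β (r jm)) - Real.log σ := by
    intro β hβ
    have h1 : β * x ≤ u τ β (r jm) := by
      unfold u
      linarith [hd.tau_pos]
    have h2 := Real.log_le_log (mul_pos hβ hx0) h1
    rw [Real.log_mul hβ.ne' hx0.ne'] at h2
    linarith
  have hS1 : ∀ β, 0 < β → n2 * Real.log β
      - (∑ i, Real.log (s i) + ∑ j, Real.log (u τ β (r j))) ≤ K1 := by
    intro β hβ
    have h1 : ∑ j, (Real.log β + Real.log (r j - τ)) ≤ ∑ j, Real.log (u τ β (r j)) := by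
      refine Finset.sum_le_sum fun j _ => ?_
      have hj : 0 < r j - τ := by linarith [(hd.r_mem j).1]
      rw [← Real.log_mul hβ.ne' hj.ne']
      refine Real.log_le_log (mul_pos hβ hj) ?_
      unfold u
      linarith [hd.tau_pos]
    rw [Finset.sum_add_distrib, Finset.sum_const, Finset.card_univ, Fintype.card_fin,
      nsmul_eq_mul] at h1
    linarith
  have hS2 : ∀ β, 0 < β → n2 * Real.log β
      - (∑ i, Real.log (s i) + ∑ j, Real.log (u τ β (r j))) ≤ K2 + n2 * Real.log β := by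
    intro β hβ
    have h1 : ∑ j : Fin n2, Real.log τ ≤ ∑ j, Real.log (u τ β (r j)) := by
      refine Finset.sum_le_sum fun j _ => ?_
      exact Real.log_le_log hd.tau_pos (tau_lt_u hβ (hd.r_mem j).1).le
    rw [Finset.sum_const, Finset.card_univ, Fintype.card_fin, nsmul_eq_mul] at h1
    linarith
  set c0 := P n τ η s r 1 1 with hc0
  set a := Real.exp ((c0 - K1) / m) with ha
  set A := (2 / δ) * (K1 + m * Real.log (2 * m / δ) - m - c0) with hA
  have ha0 : 0 < a := Real.exp_pos _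
  -- bounds on α
  have hα : ∀ α β, 0 < α → 0 < β → c0 ≤ P n τ η s r α β → a ≤ α ∧ α ≤ A := by
    intro α β hα hβ hc
    have h1 := hc.trans (P_le hd hn1 hn2 hjm hα hβ)
    have h2 := hS1 β hβ
    have h3 := mul_le_mul_of_nonneg_left (hL1 β hβ) hα.le
    have h4 : c0 ≤ m * Real.log α + K1 - α * δ := by linarith
    constructor
    · have h5 : (c0 - K1) / m ≤ Real.log α := by
        rw [div_le_iff₀ hm]
        have : 0 < α * δ := mul_pos hα hδ0
        linarith
      rw [ha]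
      exact (Real.le_log_iff_exp_le hα).1 h5
    · have h5 := Real.log_le_sub_one_of_pos (x := δ * α / (2 * m)) (by positivity)
      rw [Real.log_div (by positivity) (by positivity), Real.log_mul hδ0.ne' hα.ne'] at h5
      have h6 : Real.log (2 * m / δ) = Real.log (2 * m) - Real.log δ :=
        Real.log_div (by positivity) hδ0.ne'
      have h7 : m * Real.log α ≤ m * (Real.log (2 * m / δ) + δ * α / (2 * m) - 1) :=
        mul_le_mul_of_nonneg_left (by rw [h6]; linarith) hm.le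
      have h8 : m * (Real.log (2 * m / δ) + δ * α / (2 * m) - 1)
          = m * Real.log (2 * m / δ) + δ * α / 2 - m := by
        field_simp
      rw [h8] at h7
      have h9 : δ / 2 * α ≤ K1 + m * Real.log (2 * m / δ) - m - c0 := by linarith
      rw [hA]
      calc α = (2 / δ) * (δ / 2 * α) := by field_simp
        _ ≤ _ := mul_le_mul_of_nonneg_left h9 (by positivity)
  have h11 := hα 1 1 one_pos one_pos le_rfl
  have hA0 : 0 < A := lt_of_lt_of_le one_pos h11.2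
  set b := Real.exp ((c0 - K2 - m * Real.log A) / n2) with hb
  set B := Real.exp ((m * Real.log A + K1 - c0) / a - κ) with hB
  have hb0 : 0 < b := Real.exp_pos _
  have hβ : ∀ α β, 0 < α → 0 < β → c0 ≤ P n τ η s r α β → b ≤ β ∧ β ≤ B := by
    intro α β hα' hβ' hc
    obtain ⟨h1, h2⟩ := hα α β hα' hβ' hc
    have h3 := hc.trans (P_le hd hn1 hn2 hjm hα' hβ')
    have h4 : m * Real.log α ≤ m * Real.log A :=
      mul_le_mul_of_nonneg_left (Real.log_le_log hα' h2) hm.le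
    have h5 := hL1 β hβ'
    have h5' : 0 ≤ Real.log (u τ β (r jm)) - Real.log σ := by linarith
    constructor
    · have h6 := hS2 β hβ'
      have h7 : 0 ≤ α * (Real.log (u τ β (r jm)) - Real.log σ) := mul_nonneg hα'.le h5'
      have h8 : (c0 - K2 - m * Real.log A) / n2 ≤ Real.log β := by
        rw [div_le_iff₀ (by linarith)]
        linarith
      rw [hb]
      exact (Real.le_log_iff_exp_le hβ').1 h8
    · have h6 := hS1 β hβ'
      have h7 : a * (Real.log β + κ) ≤ α * (Real.log (u τ β (r jm)) - Real.log σ) :=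
        (mul_le_mul_of_nonneg_left (hL2 β hβ') ha0.le).trans
          (mul_le_mul_of_nonneg_right h1 h5')
      have h8 : Real.log β ≤ (m * Real.log A + K1 - c0) / a - κ := by
        have : Real.log β + κ ≤ (m * Real.log A + K1 - c0) / a := by
          rw [le_div_iff₀ ha0]
          linarith
        linarith
      rw [hB]
      exact (Real.log_le_iff_le_exp hβ').1 h8
  have hmem1 : ((1 : ℝ), (1 : ℝ)) ∈ Icc a A ×ˢ Icc b B := by
    have h12 := hβ 1 1 one_pos one_pos le_rfl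
    exact ⟨⟨h11.1, h11.2⟩, ⟨h12.1, h12.2⟩⟩
  obtain ⟨p, hp, hpmax⟩ := (isCompact_Icc.prod isCompact_Icc).exists_isMaxOn ⟨_, hmem1⟩
    (P_continuousOn hd hn2 (A := A) (B := B) ha0 hb0)
  have hp1 : 0 < p.1 := lt_of_lt_of_le ha0 hp.1.1
  have hp2 : 0 < p.2 := lt_of_lt_of_le hb0 hp.2.1
  have hglobal : ∀ α β, 0 < α → 0 < β → P n τ η s r α β ≤ P n τ η s r p.1 p.2 := by
    intro α β hα' hβ'
    by_cases hc : c0 ≤ P n τ η s r α β
    · have h1 := hα α β hα' hβ' hc
      have h2 := hβ α β hα' hβ' hc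
      exact hpmax (a := (α, β)) ⟨h1, h2⟩
    · push Not at hc
      exact hc.le.trans (hpmax (a := ((1 : ℝ), (1 : ℝ))) hmem1)
  refine ⟨p.1, (Q n τ η s r p.1 p.2 / ((n1 : ℝ) + n2)) ^ (1 / p.1), p.2, hp1, ?_, hp2, ?_⟩
  · exact Real.rpow_pos_of_pos (div_pos (Q_pos hd hn2 hp2) hm) _
  · intro α' θ' β' hα' hθ' hβ'
    rw [logLik_eq hd hn2 hp1 hp2]
    have h1 := logLik_le (α := α') hd hn2 hθ' hβ'
    have h2 := hglobal α' β' hα' hβ'
    linarith

/-! ### The exceptional case `n1 = 1`, `t_1 = τ`: the likelihood is unbounded -/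

lemma rpow_bound {τ y α : ℝ} (hτ : 0 < τ) (hy : 0 < y) (hα : 0 < α) :
    τ ^ (-α) * (u τ (1 / α) (τ + y)) ^ α ≤ Real.exp (y / τ) := by
  have h1 : u τ (1 / α) (τ + y) = τ * (1 + y / (α * τ)) := by
    unfold u
    field_simp
    ring
  have h2 : 0 < 1 + y / (α * τ) := by positivity
  rw [h1, Real.mul_rpow hτ.le h2.le, ← mul_assoc, ← Real.rpow_add hτ, neg_add_cancel,
    Real.rpow_zero, one_mul]
  have h3 : 1 + y / (α * τ) ≤ Real.exp (y / (α * τ)) := by
    have := Real.add_one_le_exp (y / (α * τ))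
    linarith
  calc (1 + y / (α * τ)) ^ α ≤ (Real.exp (y / (α * τ))) ^ α :=
        Real.rpow_le_rpow h2.le h3 hα.le
    _ = Real.exp (y / τ) := by
        rw [← Real.exp_mul]
        congr 1
        field_simp

theorem not_exists_of_eq (hd : IsData n n1 n2 τ η s r) (hn1 : 1 ≤ n1)
    (heq : s ⟨0, hn1⟩ = τ) : ¬ MLEExists n τ η s r := by
  have hn : n1 = 1 := by
    by_contra hne
    have h2 : 1 < n1 := by omega
    have h3 : s ⟨0, hn1⟩ < s ⟨1, h2⟩ := hd.mono_s (by simp [Fin.lt_def])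
    have h4 := (hd.s_mem ⟨1, h2⟩).2
    linarith
  subst hn
  rintro ⟨α₀, θ₀, β₀, hα₀, hθ₀, hβ₀, hmax⟩
  have hτ := hd.tau_pos
  have h3 : (0 : ℝ) ≤ (n : ℝ) - ((1 : ℕ) + n2) := by
    have : ((1 + n2 : ℕ) : ℝ) ≤ n := by exact_mod_cast hd.le_n
    push_cast at this ⊢
    linarith
  set V := logLik n τ η s r α₀ θ₀ β₀ with hV
  set E : ℝ := 1 + ∑ j, Real.exp ((r j - τ) / τ)
    + ((n : ℝ) - ((1 : ℕ) + n2)) * Real.exp ((η - τ) / τ) with hE
  set α := max 1 (Real.exp (V + (1 + n2) * Real.log τ + E + 1)) with hαdef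
  have hα1 : 1 ≤ α := le_max_left _ _
  have hα0 : 0 < α := by linarith
  have hlog : V + (1 + n2) * Real.log τ + E + 1 ≤ Real.log α :=
    (Real.le_log_iff_exp_le hα0).2 (le_max_right _ _)
  have h1 := hmax α τ (1 / α) hα0 hτ (by positivity)
  have hs0 : s 0 = τ := heq
  have hQ : τ ^ (-α) * Q n τ η s r α (1 / α) ≤ E := by
    unfold Q
    rw [mul_add, mul_add, Finset.mul_sum, Finset.mul_sum, hE]
    refine add_le_add (add_le_add ?_ ?_) ?_
    · rw [Fin.sum_univ_one, hs0, ← Real.rpow_add hτ, neg_add_cancel, Real.rpow_zero]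
    · refine Finset.sum_le_sum fun j _ => ?_
      have h5 := rpow_bound (α := α) hτ (y := r j - τ) (by linarith [(hd.r_mem j).1]) hα0
      rwa [add_sub_cancel] at h5
    · have h5 := rpow_bound (α := α) hτ (y := η - τ) (by linarith [hd.tau_lt]) hα0
      rw [add_sub_cancel] at h5
      calc τ ^ (-α) * (((n : ℝ) - ((1 : ℕ) + n2)) * u τ (1 / α) η ^ α)
          = ((n : ℝ) - ((1 : ℕ) + n2)) * (τ ^ (-α) * u τ (1 / α) η ^ α) := by ring
        _ ≤ _ := mul_le_mul_of_nonneg_left h5 h3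
  have hS : (1 + (n2 : ℝ)) * Real.log τ
      ≤ ∑ i, Real.log (s i) + ∑ j, Real.log (u τ (1 / α) (r j)) := by
    rw [Fin.sum_univ_one, hs0]
    have h5 : ∑ j : Fin n2, Real.log τ ≤ ∑ j, Real.log (u τ (1 / α) (r j)) := by
      refine Finset.sum_le_sum fun j _ => ?_
      exact Real.log_le_log hτ (tau_lt_u (by positivity) (hd.r_mem j).1).le
    rw [Finset.sum_const, Finset.card_univ, Fintype.card_fin, nsmul_eq_mul] at h5
    linarith
  have hS' := mul_le_mul_of_nonneg_left hS (show 0 ≤ α - 1 by linarith)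
  have hlb : Real.log α - (1 + n2) * Real.log τ - E ≤ logLik n τ η s r α τ (1 / α) := by
    unfold logLik
    rw [one_div, Real.log_inv] at *
    push_cast
    nlinarith
  linarith

end existence

/-! ### The counterexample with `n1 = 0`, `n = n2 = 3` -/

/-- the failure times of the counterexample -/
noncomputable def rr : Fin 3 → ℝ := ![1 + 3 / 9999, 1 + 8 / 9999, 2]

lemma rr_zero : rr 0 = 1 + 3 / 9999 := rfl

lemma rr_one : rr 1 = 1 + 8 / 9999 := rfl

lemma rr_two : rr 2 = 2 := rfl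

lemma data_rr : IsData 3 0 3 1 2 (fun i : Fin 0 => i.elim0) rr where
  tau_pos := one_pos
  tau_lt := by norm_num
  le_n := by norm_num
  mono_s := fun i => i.elim0
  mono_r := by
    rw [Fin.strictMono_iff_lt_succ]
    intro i
    fin_cases i
    · change rr 0 < rr 1
      rw [rr_zero, rr_one]; norm_num
    · change rr 1 < rr 2
      rw [rr_one, rr_two]; norm_num
  s_mem := fun i => i.elim0
  r_mem := by
    intro j
    fin_cases j
    · change 1 < rr 0 ∧ rr 0 ≤ 2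
      rw [rr_zero]; norm_num
    · change 1 < rr 1 ∧ rr 1 ≤ 2
      rw [rr_one]; norm_num
    · change 1 < rr 2 ∧ rr 2 ≤ 2
      rw [rr_two]; norm_num

lemma Q_rr (α β : ℝ) : Q 3 1 2 (fun i : Fin 0 => i.elim0) rr α β
    = (u 1 β (rr 0)) ^ α + (u 1 β (rr 1)) ^ α + (u 1 β (rr 2)) ^ α := by
  unfold Q
  rw [Fin.sum_univ_three]
  norm_num

lemma logLik_rr (α θ β : ℝ) : logLik 3 1 2 (fun i : Fin 0 => i.elim0) rr α θ β
    = 3 * Real.log α + 3 * Real.log β - 3 * α * Real.log θ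
      + (α - 1) * (Real.log (u 1 β (rr 0)) + Real.log (u 1 β (rr 1)) + Real.log (u 1 β (rr 2)))
      - θ ^ (-α) * ((u 1 β (rr 0)) ^ α + (u 1 β (rr 1)) ^ α + (u 1 β (rr 2)) ^ α) := by
  unfold logLik
  rw [Q_rr, Fin.sum_univ_three]
  norm_num

lemma P_rr (α β : ℝ) : P 3 1 2 (fun i : Fin 0 => i.elim0) rr α β
    = 3 * Real.log α + 3 * Real.log β
      + (α - 1) * (Real.log (u 1 β (rr 0)) + Real.log (u 1 β (rr 1)) + Real.log (u 1 β (rr 2)))
      - 3 * Real.log ((u 1 β (rr 0)) ^ α + (u 1 β (rr 1)) ^ α + (u 1 β (rr 2)) ^ α) := by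
  unfold P
  rw [Q_rr, Fin.sum_univ_three]
  norm_num

/-- one failure time: doubling `β` and `θ` increases the likelihood when `α ≤ 1` -/
lemma step {t β θ α : ℝ} (ht : 1 < t) (hβ : 0 < β) (hθ : 0 < θ) (hα : 0 < α) (hα1 : α ≤ 1) :
    (α - 1) * Real.log (u 1 β t) - θ ^ (-α) * (u 1 β t) ^ α
      < (α - 1) * Real.log (u 1 (2 * β) t) - (2 * θ) ^ (-α) * (u 1 (2 * β) t) ^ α
        + (1 - α) * Real.log 2 := by
  have hu1 : 0 < u 1 β t := u_pos one_pos hβ ht
  have hu2 : 0 < u 1 (2 * β) t := u_pos one_pos (by linarith) ht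
  have hlt : u 1 (2 * β) t < 2 * u 1 β t := by
    unfold u; linarith
  have h1 : Real.log (u 1 (2 * β) t) < Real.log 2 + Real.log (u 1 β t) := by
    rw [← Real.log_mul two_ne_zero hu1.ne']
    exact Real.log_lt_log hu2 hlt
  have h2 : (u 1 (2 * β) t) ^ α < (2 * u 1 β t) ^ α := Real.rpow_lt_rpow hu2.le hlt hα
  have h3 : (2 * θ) ^ (-α) * (2 * u 1 β t) ^ α = θ ^ (-α) * (u 1 β t) ^ α := by
    rw [Real.mul_rpow zero_le_two hθ.le, Real.mul_rpow zero_le_two hu1.le]
    have : (2 : ℝ) ^ (-α) * 2 ^ α = 1 := by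
      rw [← Real.rpow_add two_pos, neg_add_cancel, Real.rpow_zero]
    calc (2 : ℝ) ^ (-α) * θ ^ (-α) * (2 ^ α * u 1 β t ^ α)
        = ((2 : ℝ) ^ (-α) * 2 ^ α) * (θ ^ (-α) * u 1 β t ^ α) := by ring
      _ = _ := by rw [this, one_mul]
  have h4 : (2 * θ) ^ (-α) * (u 1 (2 * β) t) ^ α < (2 * θ) ^ (-α) * (2 * u 1 β t) ^ α :=
    mul_lt_mul_of_pos_left h2 (Real.rpow_pos_of_pos (by linarith) _)
  rw [h3] at h4
  have h5 : (1 - α) * Real.log (u 1 (2 * β) t) ≤ (1 - α) * (Real.log 2 + Real.log (u 1 β t)) :=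
    mul_le_mul_of_nonneg_left h1.le (by linarith)
  linarith

lemma mul_log_sub_le {w : ℝ} (hw : 0 < w) : 3 * Real.log w - w ≤ 3 * Real.log 3 - 3 := by
  have h := Real.log_le_sub_one_of_pos (x := w / 3) (by positivity)
  rw [Real.log_div hw.ne' (by norm_num)] at h
  linarith

theorem not_exists_rr : ¬ MLEExists 3 1 2 (fun i : Fin 0 => i.elim0) rr := by
  rintro ⟨α, θ, β, hα, hθ, hβ, hmax⟩
  have hr0 : 1 < rr 0 := by rw [rr_zero]; norm_num
  have hr1 : 1 < rr 1 := by rw [rr_one]; norm_num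
  have hr2 : 1 < rr 2 := by rw [rr_two]; norm_num
  rcases le_or_gt α 1 with hα1 | hα1
  · have h1 := hmax α (2 * θ) (2 * β) hα (by linarith) (by linarith)
    rw [logLik_rr, logLik_rr, Real.log_mul two_ne_zero hβ.ne', Real.log_mul two_ne_zero hθ.ne']
      at h1
    have e0 := step hr0 hβ hθ hα hα1
    have e1 := step hr1 hβ hθ hα hα1
    have e2 := step hr2 hβ hθ hα hα1
    linarith
  · -- upper bound for the profile at `(α, β)`
    have hu0 : 0 < u 1 β (rr 0) := u_pos one_pos hβ hr0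
    have hu1 : 0 < u 1 β (rr 1) := u_pos one_pos hβ hr1
    have hu2 : 0 < u 1 β (rr 2) := u_pos one_pos hβ hr2
    have e2 : u 1 β (rr 2) = 1 + β := by rw [u, rr_two]; ring
    have hA : P 3 1 2 (fun i : Fin 0 => i.elim0) rr α β ≤ 3 * Real.log 3 - 2 := by
      rw [P_rr]
      have h1 : α * Real.log (u 1 β (rr 2)) ≤ Real.log
          ((u 1 β (rr 0)) ^ α + (u 1 β (rr 1)) ^ α + (u 1 β (rr 2)) ^ α) := by
        rw [← Real.log_rpow hu2]
        refine Real.log_le_log (Real.rpow_pos_of_pos hu2 _) ?_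
        have := Real.rpow_nonneg hu0.le α
        have := Real.rpow_nonneg hu1.le α
        linarith
      have hq : ∀ v : ℝ, 0 < v → v ≤ 1 + β / 2 →
          Real.log v - Real.log (u 1 β (rr 2)) ≤ -(β / (2 * (1 + β))) := by
        intro v hv hvle
        rw [e2, ← Real.log_div hv.ne' (by linarith)]
        refine (Real.log_le_sub_one_of_pos (by positivity)).trans ?_
        rw [div_sub_one (by linarith), ← neg_div, div_le_div_iff₀ (by linarith) (by linarith)]
        nlinarith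
      have hq0 := hq _ hu0 (by simp only [u, rr_zero, rr_one]; linarith)
      have hq1 := hq _ hu1 (by simp only [u, rr_zero, rr_one]; linarith)
      have hw : 0 < α * β / (1 + β) := by positivity
      have h2 := mul_log_sub_le hw
      have h3 : Real.log (α * β / (1 + β)) = Real.log α + Real.log β - Real.log (u 1 β (rr 2)) := by
        rw [e2, Real.log_div (by positivity) (by linarith), Real.log_mul hα.ne' hβ.ne']
      rw [h3] at h2
      have h4 : β / (1 + β) ≤ 1 := by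
        rw [div_le_one (by linarith)]; linarith
      have h5 : α * β / (1 + β) = α * (β / (1 + β)) := by ring
      have h6 : β / (2 * (1 + β)) = (β / (1 + β)) / 2 := by field_simp
      rw [h6] at hq0 hq1
      rw [h5] at h2
      set g := β / (1 + β) with hg
      have hc0 := mul_le_mul_of_nonneg_left hq0 (show 0 ≤ α - 1 by linarith)
      have hc1 := mul_le_mul_of_nonneg_left hq1 (show 0 ≤ α - 1 by linarith)
      nlinarith
    -- value at `α = 1/2`, `β = 9999`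
    have v0 : u 1 9999 (rr 0) = 2 ^ 2 := by rw [u, rr_zero]; norm_num
    have v1 : u 1 9999 (rr 1) = 3 ^ 2 := by rw [u, rr_one]; norm_num
    have v2 : u 1 9999 (rr 2) = 100 ^ 2 := by rw [u, rr_two]; norm_num
    have hB : 3 * Real.log 3 < P 3 1 2 (fun i : Fin 0 => i.elim0) rr (1 / 2) 9999 := by
      rw [P_rr, v0, v1, v2, ← Real.sqrt_eq_rpow, ← Real.sqrt_eq_rpow, ← Real.sqrt_eq_rpow,
        Real.sqrt_sq (by norm_num), Real.sqrt_sq (by norm_num), Real.sqrt_sq (by norm_num)]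
      have h1 : Real.log (1 / 2 : ℝ) = -Real.log 2 := by
        rw [one_div, Real.log_inv]
      rw [h1, Real.log_pow, Real.log_pow, Real.log_pow]
      have h2 : Real.log ((2 : ℝ) ^ 4 * 3 ^ 4 * 100 * 105 ^ 3) < Real.log ((9999 : ℝ) ^ 3) :=
        Real.log_lt_log (by norm_num) (by norm_num)
      rw [Real.log_mul (by norm_num) (by norm_num), Real.log_mul (by norm_num) (by norm_num),
        Real.log_mul (by norm_num) (by norm_num), Real.log_pow, Real.log_pow, Real.log_pow,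
        Real.log_pow] at h2
      norm_num at h2 ⊢
      linarith
    have hC := hmax (1 / 2) ((Q 3 1 2 (fun i : Fin 0 => i.elim0) rr (1 / 2) 9999
      / (((0 : ℕ) : ℝ) + (3 : ℕ))) ^ (1 / (1 / 2 : ℝ))) 9999 (by norm_num)
      (Real.rpow_pos_of_pos (div_pos (Q_pos data_rr (by norm_num) (by norm_num)) (by norm_num)) _)
      (by norm_num)
    rw [logLik_eq data_rr (by norm_num) (by norm_num) (by norm_num)] at hC
    have hD := logLik_le (α := α) data_rr (by norm_num) hθ hβ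
    have hF := le_of_add_le_add_right (hC.trans hD)
    linarith

theorem result :
    ¬ Q1 ∧
    (∃ (τ η : ℝ) (s : Fin 0 → ℝ) (r : Fin 3 → ℝ), IsData 3 0 3 τ η s r ∧
      ¬ MLEExists 3 τ η s r) ∧
    (∀ (n n1 n2 : ℕ) (τ η : ℝ) (s : Fin n1 → ℝ) (r : Fin n2 → ℝ) (hn1 : 1 ≤ n1), 1 ≤ n2 →
      IsData n n1 n2 τ η s r → (MLEExists n τ η s r ↔ s ⟨0, hn1⟩ < τ)) := by
  refine ⟨?_, ⟨1, 2, _, rr, data_rr, not_exists_rr⟩, ?_⟩
  · intro h
    exact not_exists_rr (h 3 0 3 1 2 _ rr data_rr (by norm_num) (by norm_num))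
  · intro n n1 n2 τ η s r hn1 hn2 hd
    constructor
    · intro h
      rcases (hd.s_mem ⟨0, hn1⟩).2.lt_or_eq with h1 | h1
      · exact h1
      · exact absurd h (not_exists_of_eq hd hn1 h1)
    · exact exists_of_lt hd hn1 hn2

end Pool.Agent.Results.MP_1bbe3d_pr.StepStressMLE
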